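import Mathlib
import Pool.Agent.X86.EC.Main

/-!
# MP_4104ad_al, Q1: `ext_R(C_I(R)) = C_{V(I)}(R)` for every commutative noetherian ring

* `Pool.Agent.X86.EC.depth A N`: depth over a local ring (regular sequences; zero module: `∞`).
* `Pool.Agent.X86.EC.InC R M`: `M ∈ C(R)`.
* `Pool.Agent.X86.EC.InStAnn M a`: `a` is in the stable annihilator of `M`.
* `Pool.Agent.X86.EC.InCI R I M`: `M ∈ C_I(R)`.
* `Pool.Agent.X86.EC.InCV R I M`: `M ∈ C_{V(I)}(R)`.
* `Pool.Agent.X86.EC.ExtStable Y`: `Y` is a subcategory of `mod R` stable under finite direct sums,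
  direct summands and extensions.
-/

namespace Pool.Agent.Results.MP_4104ad_al.ExtClosure

open Pool.Agent.X86.EC

universe u

variable {R : Type u} [CommRing R]

/-- `M` belongs to `ext_R 𝒳`, the least subcategory of `mod R` that contains `𝒳` and is stable
under finite direct sums, direct summands and extensions. -/
def InExt (𝒳 : ModuleCat.{u} R → Prop) (M : ModuleCat.{u} R) : Prop :=
  ∀ Y : ModuleCat.{u} R → Prop, ExtStable Y → (∀ N, 𝒳 N → Y N) → Y M

/-- **Q1 of MP_4104ad_al holds.** For every commutative noetherian ring `R` and every ideal `I`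
of `R`, `ext_R(C_I(R)) = C_{V(I)}(R)`. -/
theorem _root_.Pool.Agent.Results.MP_4104ad_al.ExtClosure.result [IsNoetherianRing R]
    (I : Ideal R) (M : ModuleCat.{u} R) :
    InExt (fun N => InCI R I N) M ↔ InCV R I M := by
  constructor
  · intro h
    exact h _ (extStable_inCV I) (fun N hN => hN.inCV)
  · intro h Y hY hYI
    exact main hY hYI M h

end Pool.Agent.Results.MP_4104ad_al.ExtClosure
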